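import Pool.Agent.Zk12.FG.Stm

/-!
# Project FG, part C: the class of a function along a section which arises from a rational point
-/

set_option autoImplicit false
set_option linter.all false

namespace Pool.Agent.Zk81.FG

open Pool.Agent.TH954

lemma lt_iff {Ω : Type} [Field Ω] (W : ValuationSubring Ω) (x : Ω) :
    W.valuation x < 1 ↔ x = 0 ∨ x⁻¹ ∉ W := by
  by_cases hx : x = 0
  · simp [hx]
  · have h0 : W.valuation x ≠ 0 := (Valuation.ne_zero_iff _).2 hx
    rw [← W.valuation_le_one_iff, map_inv₀, not_le]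
    constructor
    · intro h
      right
      exact (one_lt_inv₀ (zero_lt_iff.2 h0)).2 h
    · rintro (h | h)
      · exact absurd h hx
      · exact (one_lt_inv₀ (zero_lt_iff.2 h0)).1 h

theorem cls : Pool.Agent.Zk12.FG.S_CLS := by
  intro K F Ω B _ _ _ _ _ _ _ _ _ _ _ _ s O hO f q c w m hq hc hm hf hw hfw
  obtain ⟨hO1, hKO, -, W, hWO, hst⟩ := hO
  have hBc : IsAlgClosed B := IsAlgClosure.isAlgClosed K
  have hBa : Algebra.IsAlgebraic K B := IsAlgClosure.isAlgebraic
  have hB0 : CharZero B := charZero_of_injective_algebraMap (algebraMap K B).injective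
  -- the elements of `j B`
  have hjW : ∀ b : B, s.j b ∈ W := by
    intro b
    have h1 : IsIntegral K (s.j b) := (Algebra.IsIntegral.isIntegral b).map s.j
    obtain ⟨P, hP, hP0⟩ := h1
    have h2 : IsIntegral W (s.j b) := by
      have hmem : ∀ a : K, algebraMap K Ω a ∈ W := by
        intro a
        have h3 := hKO a
        rw [← hWO, ValuationSubring.mem_comap] at h3
        rwa [IsScalarTower.algebraMap_apply K F Ω]
      let φ : K →+* W := (algebraMap K Ω).codRestrict W.toSubring hmem
      refine ⟨P.map φ, hP.map φ, ?_⟩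
      rw [Polynomial.eval₂_map]
      exact hP0
    obtain ⟨y, hy⟩ := IsIntegrallyClosed.isIntegral_iff.1 h2
    rw [← hy]
    exact y.2
  have hju : ∀ b : B, b ≠ 0 → W.valuation (s.j b) = 1 := by
    intro b hb
    have h1 : W.valuation (s.j b) ≤ 1 := (W.valuation_le_one_iff _).2 (hjW b)
    have h2 : W.valuation (s.j b⁻¹) ≤ 1 := (W.valuation_le_one_iff _).2 (hjW b⁻¹)
    have h3 : W.valuation (s.j b) * W.valuation (s.j b⁻¹) = 1 := by
      rw [← map_mul, ← map_mul, mul_inv_cancel₀ hb, map_one, map_one]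
    refine le_antisymm h1 ?_
    by_contra h4
    push Not at h4
    have h5 : W.valuation (s.j b) * W.valuation (s.j b⁻¹) < 1 := mul_lt_one_of_lt_of_le h4 h2
    exact absurd h3 h5.ne
  -- stability of the maximal ideal
  have hst' : ∀ (g : B ≃ₐ[K] B) (x : Ω), W.valuation x < 1 → W.valuation (s.s g x) < 1 := by
    intro g x hx
    rw [lt_iff] at hx ⊢
    rcases hx with rfl | hx
    · left
      exact map_zero _
    · right
      rw [← map_inv₀, hst]
      exact hx
  have hmW : ∀ x : F, O.valuation x < 1 → W.valuation (algebraMap F Ω x) < 1 := by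
    intro x hx
    rw [lt_iff] at hx ⊢
    rcases hx with rfl | hx
    · left
      exact map_zero _
    · right
      rw [← map_inv₀]
      intro h
      apply hx
      rw [← hWO, ValuationSubring.mem_comap]
      exact h
  -- the root
  obtain ⟨β, hβ⟩ := IsAlgClosed.exists_pow_nat_eq (algebraMap K B (q / c)) hm
  have hqc : algebraMap K B (q / c) ≠ 0 := by
    rw [Ne, map_eq_zero_iff _ (algebraMap K B).injective]
    exact div_ne_zero hq hc
  have hβ0 : β ≠ 0 := by
    rintro rfl
    rw [zero_pow hm.ne'] at hβ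
    exact hqc hβ.symm
  have hjβ0 : s.j β ≠ 0 := by
    intro h
    have h1 := hju β hβ0
    rw [h, map_zero] at h1
    exact zero_ne_one h1
  have hjβ : s.j β ^ m = algebraMap K Ω (q / c) := by
    rw [← map_pow, hβ, s.j.commutes]
  have hqΩ : algebraMap K Ω q ≠ 0 := by
    rw [Ne, map_eq_zero_iff _ (algebraMap K Ω).injective]
    exact hq
  have hcΩ : algebraMap K Ω c ≠ 0 := by
    rw [Ne, map_eq_zero_iff _ (algebraMap K Ω).injective]
    exact hc
  set u : Ω := w / s.j β with hu
  have hum : u ^ m - 1 = algebraMap F Ω (f - algebraMap K F q) / algebraMap K Ω q := by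
    rw [hu, div_pow, hjβ, map_div₀, map_sub, hfw, ← IsScalarTower.algebraMap_apply K F Ω]
    field_simp
  have hum1 : W.valuation (u ^ m - 1) < 1 := by
    rw [hum, map_div₀]
    have h1 : W.valuation (algebraMap K Ω q) = 1 := by
      have h2 := hju (algebraMap K B q) (by
        rw [Ne, map_eq_zero_iff _ (algebraMap K B).injective]
        exact hq)
      rwa [s.j.commutes] at h2
    rw [h1, div_one]
    exact hmW _ hf
  -- factorisation of `u ^ m - 1`
  obtain ⟨ζ, hζ⟩ : ∃ ζ : B, IsPrimitiveRoot ζ m := by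
    have : NeZero (m : B) := ⟨by exact_mod_cast hm.ne'⟩
    exact HasEnoughRootsOfUnity.exists_primitiveRoot B m
  have hζΩ : IsPrimitiveRoot (s.j ζ) m := hζ.map_of_injective s.j.injective
  have hfac : u ^ m - 1 = ∏ η ∈ Polynomial.nthRootsFinset m (1 : Ω), (u - η) := by
    have h1 := Polynomial.X_pow_sub_one_eq_prod hm hζΩ
    have h2 := congrArg (Polynomial.eval u) h1
    rw [Polynomial.eval_prod] at h2
    simpa using h2
  obtain ⟨η, hη, hηu⟩ : ∃ η ∈ Polynomial.nthRootsFinset m (1 : Ω), W.valuation (u - η) < 1 := by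
    by_contra hcon
    push Not at hcon
    have h1 : 1 ≤ W.valuation (∏ η ∈ Polynomial.nthRootsFinset m (1 : Ω), (u - η)) := by
      rw [map_prod]
      exact Finset.one_le_prod' hcon
    rw [← hfac] at h1
    exact absurd hum1 (not_lt.2 h1)
  have hη1 : η ^ m = 1 := (Polynomial.mem_nthRootsFinset hm 1).1 hη
  have hmne : NeZero m := ⟨hm.ne'⟩
  obtain ⟨i, -, hi⟩ := hζΩ.eq_pow_of_pow_eq_one hη1
  -- the root `β'` of `q / c` which is congruent to `w`
  set β' : B := β * ζ ^ i with hβ'
  have hβ'm : β' ^ m = algebraMap K B (q / c) := by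
    rw [hβ', mul_pow, hβ, ← pow_mul, mul_comm i m, pow_mul, hζ.pow_eq_one, one_pow, mul_one]
  have hwβ : W.valuation (w - s.j β') < 1 := by
    have h1 : w - s.j β' = s.j β * (u - η) := by
      rw [hβ', map_mul, map_pow, hi, hu, mul_sub, mul_div_cancel₀ _ hjβ0]
    rw [h1, map_mul, hju β hβ0, one_mul]
    exact hηu
  have hfix : ∀ g : B ≃ₐ[K] B, g β' = β' := by
    intro g
    have h1 := hst' g _ hwβ
    rw [map_sub, hw, s.sec] at h1
    by_contra hne
    have h2 : g β' - β' ≠ 0 := sub_ne_zero.2 hne
    have h3 := hju _ h2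
    have h4 : s.j (g β' - β') = (w - s.j β') - (w - s.j (g β')) := by
      rw [map_sub]
      ring
    rw [h4] at h3
    have h5 := Valuation.map_sub_lt W.valuation hwβ h1
    exact absurd h3 h5.ne
  have hgal : IsGalois K B := by
    have := IsAlgClosure.normal K B
    exact IsGalois.mk
  obtain ⟨r, hr⟩ : ∃ r : K, algebraMap K B r = β' := by
    have h1 := (InfiniteGalois.mem_bot_iff_fixed (k := K) (K := B) β').2 hfix
    exact IntermediateField.mem_bot.1 h1
  refine ⟨r, ?_⟩
  have h1 : r ^ m = q / c := by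
    apply (algebraMap K B).injective
    rw [map_pow, hr, hβ'm]
  rw [h1]
  field_simp

end Pool.Agent.Zk81.FG
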